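import Pool.Agent.H310.HD.Exact3

/-!
# Exacting cardinals and the HOD Hypothesis

Let `δ` be an extendible cardinal. If the HOD Hypothesis holds, then for some `β < δ` there is no
exacting cardinal above `β`. Hence, if `δ` is a limit of exacting cardinals (or there is an exacting
cardinal above `δ`), then the HOD Hypothesis fails; more precisely, every regular cardinal `r ≥ δ` is
`ω`-strongly measurable in `HOD`.
-/

set_option autoImplicit false

namespace Pool.Agent.Results.MP_9bb456_lc.LimitOfExacting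

open Pool.Agent.H310.HD Gss969 ZFSet

universe u

/-- `l` is an ultraexacting cardinal: for every cardinal `ζ > l` there are an elementary
substructure `X` of `V_ζ` with `V_l ∪ {l} ⊆ X` and an elementary embedding `j : X → V_ζ` with
`j(l) = l` which is not the identity on `l` and whose restriction to `V_l` belongs to `X`. -/
def Ultraexacting (l : Ordinal.{u}) : Prop :=
  IsCard l.toZFSet ∧ Ordinal.omega0 < l ∧ ∀ ζ > l, IsCard (Ordinal.toZFSet ζ) →
    ∃ X, Elem X (V_ ζ) ∧ V_ l ⊆ X ∧ l.toZFSet ∈ X ∧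
      ∃ j, IsEl X (V_ ζ) j ∧ j l.toZFSet = l.toZFSet ∧ (∃ α < l, j α.toZFSet ≠ α.toZFSet) ∧
        gr (V_ l) j ∈ X

/-- The HOD Hypothesis. -/
def HODHypothesis (b : Bool) : Prop := ∀ β : Ordinal.{u}, ∃ l > β, NotStrMeas b l

theorem result (b : Bool) :
    (∀ l : Ordinal.{u}, Ultraexacting l → Exacting l) ∧
    (∀ l : Ordinal.{u}, Exacting l → CofOm l.toZFSet ∧ ¬ CofinalP HOD l.toZFSet) ∧
    ∀ δ : Ordinal.{u}, Extendible δ →
      (HODHypothesis.{u} b → ∃ β < δ, ∀ l > β, ¬ Exacting l) ∧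
      ((∀ β < δ, ∃ l > β, Exacting l) →
        ¬ HODHypothesis.{u} b ∧ ∀ r ≥ δ, RegUnc (Ordinal.toZFSet r) → StrMeas b r) := by
  have key : ∀ δ : Ordinal.{u}, Extendible δ → HODHypothesis.{u} b →
      ∃ β < δ, ∀ l > β, ¬ Exacting l := by
    intro δ hδ h
    have hfam : ∀ k₀ : Ordinal.{u}, ∃ k ≥ k₀, ∃ l > k,
        RegUnc (Ordinal.toZFSet l) ∧ ∃ S, HOD S ∧ Fam om k.toZFSet l.toZFSet S := by
      intro k₀
      exact fam_of_nonSM (b := b) (fun β => by
        obtain ⟨l, hl, h1⟩ := h β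
        exact ⟨l, hl, (notStrMeas_iff b l).1 h1⟩) k₀
    obtain ⟨k, hk, l, _, hr, S, hS, hF⟩ := hfam (Order.succ δ)
    obtain ⟨β, hβ, hω, hcov⟩ := tail_cov hδ ((Order.lt_succ δ).trans_le hk) hδ.om_lt hr hS hF
    refine ⟨β, hβ, fun m hm hex => ?_⟩
    obtain ⟨hc, hreg⟩ := hex.reg
    rcases lt_trichotomy m δ with h1 | h1 | h1
    · exact hreg (sing_of_cov (b := β) (le_of_lt hm) (hcov m h1 _ hω) hc)
    · obtain ⟨f, hf, hf'⟩ := hc
      rw [h1] at hf hf'
      obtain ⟨y, hy, hy'⟩ := hδ.regUnc.2.2 om (hδ.regUnc.2.1) f hf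
      obtain ⟨n, hn, z, hz, hnz, hyz⟩ := hf' y hy
      exact mem_asymm hyz (hy' n hn z hz hnz)
    · obtain ⟨k', hk', l', _, hr', S', hS', hF'⟩ := hfam m
      exact hreg (sing_of_cov (b := δ) h1.le (cov_of_fam hδ hk' hδ.om_lt hr' hS' hF' hδ.om_lt) hc)
  refine ⟨?_, fun l hl => hl.reg, fun δ hδ => ⟨key δ hδ, ?_⟩⟩
  · rintro l ⟨h1, h2, h3⟩
    refine ⟨h1, h2, fun ζ hζ hc => ?_⟩
    obtain ⟨X, h4, h5, h6, j, h7, h8, h9, _⟩ := h3 ζ hζ hc
    exact ⟨X, h4, h5, h6, j, h7, h8, h9⟩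
  · intro h
    have hno : ¬ HODHypothesis.{u} b := by
      intro hH
      obtain ⟨β, hβ, h1⟩ := key δ hδ hH
      obtain ⟨l, hl, h2⟩ := h β hβ
      exact h1 l hl h2
    refine ⟨hno, fun r hr hreg => ?_⟩
    by_contra hcon
    refine hno fun β => ?_
    obtain ⟨l', h1, h2⟩ := hδ.above (mono_Index b) hr ((notStrMeas_iff b r).1 ⟨hreg, hcon⟩) β
    exact ⟨l', h1, (notStrMeas_iff b l').2 h2⟩

end Pool.Agent.Results.MP_9bb456_lc.LimitOfExacting
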